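import Pool.Agent.helper56.NR.Spec

set_option autoImplicit false

open Complex Metric Set Filter Topology MeasureTheory Pool.Agent.helper98.ILF

open EX (ff)

noncomputable section

namespace NR

theorem LMZ (hKO0 : V3.KO0_stmt) (hKO1 : V3.KO1_stmt) (hKO3 : V3.KO3_stmt) : LMZ_stmt := by
  intro n c ε δ hn hε hδ hδ1 hint hB
  by_contra hne
  have hSm : MeasurableSet (UP.Lam n c ε) := (UP.Lam_closed n c ε).measurableSet
  have hcomp : IsCompact (UP.Lam n c ε) := (Pool.Agent.helper98.ILF.isCompact_filled n c).of_isClosed_subset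
    (UP.Lam_closed n c ε) (fun x hx => hx.1)
  have hrne : (volume.restrict (UP.Lam n c ε)) ≠ 0 := by
    rw [Ne, Measure.restrict_eq_zero]; exact hne
  have : NeBot (ae (volume.restrict (UP.Lam n c ε))) := ae_neBot.2 hrne
  obtain ⟨z, hz1, hz2⟩ := ((Besicovitch.ae_tendsto_measure_inter_div volume (UP.Lam n c ε)).and
    (ae_restrict_mem hSm)).exists
  have hint2 : interior (UP.Lam n c ε) = ∅ := by
    rw [← subset_empty_iff, ← hint]
    exact interior_mono (fun x hx => hx.1)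
  obtain ⟨ε₀, hε₀, hden⟩ := Pool.Agent.helper98.ILF.density_of_compact hcomp hint2 (δ / 2) (by positivity)
  obtain ⟨C₁, hC₁, hK1⟩ := hKO1
  refine UP.Den0 hKO0 hKO3 (UP.Lam n c ε) hSm z hz1 δ ε₀ hδ hε₀ ?_
  intro β hβ
  obtain ⟨m₀, hm₀⟩ := UP.Blow n c hn hint (β * δ / C₁) (by positivity)
  obtain ⟨G, hG1, hG2, hG3⟩ := hB m₀ z hz2
  refine ⟨(UP.ff n c)^[m₀] z, G, hG1, ?_, hG2, ?_, ?_, hden _ (UP.Lam_iter n c hn ε z hz2 m₀)⟩
  · intro a ha b hb hab
    have h1 := hG3 a ha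
    rw [hab, hG3 b hb] at h1
    exact h1.symm
  · intro y hy hyS
    have h1 := UP.Lam_iter n c hn ε _ hyS m₀
    rw [hG3 y hy] at h1
    exact h1
  · have h1 := UP.Blow_der C₁ hC₁ hK1 n c (β * δ / C₁) m₀ z hz2.1 δ hδ hδ1 (hm₀ m₀ le_rfl z hz2.1) G hG1 hG2 hG3
    have h2 : C₁ * (β * δ / C₁) = δ * β := by field_simp
    rw [h2] at h1
    exact le_of_mul_le_mul_left h1 hδ

end NR
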